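import Pool.Agent.Helper1.DP2.Norm2
import Pool.Agent.Helper28.DP2.Alg

/-!
Module DQ-S: primitive coordinates of a `p`-adic point.
-/

namespace Pool.Agent.Helper8.DP2

namespace Primitive

variable {K : Type*} [Field K] {m n d : ℤ}

theorem lin_scale {R : Type*} [CommRing R] (l x y z : R) (i : Fin 7) :
    lin m n (l * x) (l * y) (l * z) i = l * lin m n x y z i := by
  fin_cases i <;> simp [lin] <;> ring

theorem com_scale {R : Type*} [CommRing R] (l x y z : R) (i : Fin 7) :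
    com m n (l * x) (l * y) (l * z) i = l ^ 3 * com m n x y z i := by
  fin_cases i <;> simp [com] <;> ring

theorem F_scale {R : Type*} [CommRing R] (l x y z : R) :
    F m n (l * x) (l * y) (l * z) = l ^ 4 * F m n x y z := by
  simp only [F]; ring

/-- scaling of a point -/
def scale (l : K) (hl : l ≠ 0) (P : Pt m n d K) : Pt m n d K where
  x := l * P.x
  y := l * P.y
  z := l * P.z
  w := l ^ 2 * P.w
  ne := by
    rintro ⟨h1, h2, h3⟩
    exact P.ne ⟨(mul_eq_zero.mp h1).resolve_left hl, (mul_eq_zero.mp h2).resolve_left hl,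
      (mul_eq_zero.mp h3).resolve_left hl⟩
  eq := by
    rw [F_scale, mul_pow, P.eq]; ring

theorem not_both_zero (hb : ((bad m n : ℤ) : K) ≠ 0) (hns : ¬ IsSquare (d : K))
    (P : Pt m n d K) (i : Fin 7) (h1 : lin m n P.x P.y P.z i = 0)
    (h2 : com m n P.x P.y P.z i = 0) : False := by
  have hB := basic m n P.x P.y P.z i
  rw [h1, zero_mul, add_zero] at hB
  by_cases hq : qua m n P.x P.y P.z i = 0
  · exact P.ne (no_common_zero hb _ _ _ i h1 h2 hq)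
  · apply hns
    refine ⟨scl m n i * P.w / qua m n P.x P.y P.z i, ?_⟩
    have hw := P.eq
    field_simp
    rw [hw, ← hB]
    ring

theorem ent_scale (hb : ((bad m n : ℤ) : K) ≠ 0) (hns : ¬ IsSquare (d : K))
    (P : Pt m n d K) (l : K) (hl : l ≠ 0) (i : Fin 7) :
    ∃ t : K, t ≠ 0 ∧ ent (scale l hl P) i = l * (t ^ 2 * ent P i) := by
  by_cases h1 : lin m n P.x P.y P.z i = 0
  · have h2 : com m n P.x P.y P.z i ≠ 0 := fun h2 => not_both_zero hb hns P i h1 h2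
    refine ⟨l, hl, ?_⟩
    have h3 : lin m n (l * P.x) (l * P.y) (l * P.z) i = 0 := by rw [lin_scale, h1, mul_zero]
    have h4 : com m n (l * P.x) (l * P.y) (l * P.z) i ≠ 0 := by
      rw [com_scale]; exact mul_ne_zero (pow_ne_zero _ hl) h2
    simp only [ent, scale, h1, h2, h3, h4, ne_eq, not_true_eq_false, not_false_eq_true, if_true,
      if_false]
    rw [com_scale]
    ring
  · refine ⟨1, one_ne_zero, ?_⟩
    have h3 : lin m n (l * P.x) (l * P.y) (l * P.z) i ≠ 0 := by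
      rw [lin_scale]; exact mul_ne_zero hl h1
    simp only [ent, scale, h1, h3, ne_eq, not_false_eq_true, if_true]
    rw [lin_scale]
    ring

theorem prod_scale (hb : ((bad m n : ℤ) : K) ≠ 0) (hns : ¬ IsSquare (d : K))
    (P : Pt m n d K) (l : K) (hl : l ≠ 0) (T : Finset (Fin 7)) :
    ∃ t : K, t ≠ 0 ∧ ∏ i ∈ T, ent (scale l hl P) i = l ^ T.card * (t ^ 2 * ∏ i ∈ T, ent P i) := by
  choose t ht ht2 using fun i => ent_scale hb hns P l hl i
  refine ⟨∏ i ∈ T, t i, Finset.prod_ne_zero_iff.mpr fun i _ => ht i, ?_⟩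
  rw [Finset.prod_congr rfl fun i _ => ht2 i, Finset.prod_mul_distrib, Finset.prod_const,
    Finset.prod_mul_distrib, Finset.prod_pow]

theorem inv_scale (h2 : (2 : K) ≠ 0) (hd : (d : K) ≠ 0) (hb : ((bad m n : ℤ) : K) ≠ 0)
    (hns : ¬ IsSquare (d : K)) (P : Pt m n d K) (l : K) (hl : l ≠ 0) (T : Finset (Fin 7))
    (hT : Even T.card) : inv P T = inv (scale l hl P) T := by
  obtain ⟨r, hr⟩ := hT
  obtain ⟨t, ht, hprod⟩ := prod_scale hb hns P l hl T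
  have e : ∏ i ∈ T, ent (scale l hl P) i = (l ^ r * t) ^ 2 * ∏ i ∈ T, ent P i := by
    rw [hprod, hr, pow_add]; ring
  have h3 : inv P T = 0 ↔ inv (scale l hl P) T = 0 := by
    rw [inv_eq_zero_iff h2 hd, inv_eq_zero_iff h2 hd, e,
      IsN.sq_mul_iff (mul_ne_zero (pow_ne_zero _ hl) ht)]
  generalize inv P T = a at h3 ⊢
  generalize inv (scale l hl P) T = b at h3 ⊢
  revert a b
  decide

end Primitive

open Primitive in
theorem exists_primitive {p : ℕ} [Fact p.Prime] {m n d : ℤ} (hb : bad m n ≠ 0) (hd : d ≠ 0)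
    (hns : ¬ IsSquare (d : ℚ_[p])) (P : Pt m n d ℚ_[p]) :
    ∃ (Q : Pt m n d ℚ_[p]) (x y z w : ℤ_[p]), Q.x = x ∧ Q.y = y ∧ Q.z = z ∧ Q.w = w ∧
      (IsUnit x ∨ IsUnit y ∨ IsUnit z) ∧
      ∀ T : Finset (Fin 7), Even T.card → inv P T = inv Q T := by
  have hb' : ((bad m n : ℤ) : ℚ_[p]) ≠ 0 := by exact_mod_cast hb
  have hd' : ((d : ℤ) : ℚ_[p]) ≠ 0 := by exact_mod_cast hd
  -- the coordinate of largest norm
  have key : ∃ c : ℚ_[p], c ≠ 0 ∧ ‖P.x‖ ≤ ‖c‖ ∧ ‖P.y‖ ≤ ‖c‖ ∧ ‖P.z‖ ≤ ‖c‖ ∧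
      (c = P.x ∨ c = P.y ∨ c = P.z) := by
    have main : ∃ c : ℚ_[p], ‖P.x‖ ≤ ‖c‖ ∧ ‖P.y‖ ≤ ‖c‖ ∧ ‖P.z‖ ≤ ‖c‖ ∧
      (c = P.x ∨ c = P.y ∨ c = P.z) := by
      rcases le_total ‖P.x‖ ‖P.y‖ with h1 | h1
      · rcases le_total ‖P.y‖ ‖P.z‖ with h2 | h2
        · exact ⟨P.z, h1.trans h2, h2, le_rfl, Or.inr (Or.inr rfl)⟩
        · exact ⟨P.y, h1, le_rfl, h2, Or.inr (Or.inl rfl)⟩
      · rcases le_total ‖P.x‖ ‖P.z‖ with h2 | h2
        · exact ⟨P.z, h2, h1.trans h2, le_rfl, Or.inr (Or.inr rfl)⟩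
        · exact ⟨P.x, le_rfl, h1, h2, Or.inl rfl⟩
    obtain ⟨c, h1, h2, h3, h4⟩ := main
    refine ⟨c, ?_, h1, h2, h3, h4⟩
    rintro rfl
    rw [norm_zero] at h1 h2 h3
    exact P.ne ⟨norm_le_zero_iff.mp h1, norm_le_zero_iff.mp h2, norm_le_zero_iff.mp h3⟩
  obtain ⟨c, hc, hx, hy, hz, hcc⟩ := key
  have hl : c⁻¹ ≠ 0 := inv_ne_zero hc
  have hc0 : 0 < ‖c‖ := norm_pos_iff.mpr hc
  have hle : ∀ u : ℚ_[p], ‖u‖ ≤ ‖c‖ → ‖c⁻¹ * u‖ ≤ 1 := by
    intro u hu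
    rw [norm_mul, norm_inv, inv_mul_le_iff₀ hc0, mul_one]
    exact hu
  set Q := scale c⁻¹ hl P with hQ
  set x : ℤ_[p] := ⟨c⁻¹ * P.x, hle _ hx⟩ with hx'
  set y : ℤ_[p] := ⟨c⁻¹ * P.y, hle _ hy⟩ with hy'
  set z : ℤ_[p] := ⟨c⁻¹ * P.z, hle _ hz⟩ with hz'
  have hw : ‖Q.w‖ ≤ 1 := by
    have h1 := Q.eq
    have h2 : (d : ℚ_[p]) * F m n Q.x Q.y Q.z = (((d : ℤ_[p]) * F m n x y z : ℤ_[p]) : ℚ_[p]) := by
      simp only [F]
      push_cast
      rfl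
    rw [h2] at h1
    have h3 : ‖Q.w‖ ^ 2 ≤ 1 := by
      rw [← norm_pow, h1]
      exact PadicInt.norm_le_one _
    exact (pow_le_one_iff_of_nonneg (norm_nonneg _) two_ne_zero).mp h3
  refine ⟨Q, x, y, z, ⟨Q.w, hw⟩, rfl, rfl, rfl, rfl, ?_, fun T hT =>
    inv_scale two_ne_zero hd' hb' hns P _ hl T hT⟩
  have hu : ∀ u : ℤ_[p], (u : ℚ_[p]) = c⁻¹ * c → IsUnit u := by
    intro u hu
    rw [inv_mul_cancel₀ hc] at hu
    have : u = 1 := by
      apply Subtype.ext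
      rw [hu]; rfl
    rw [this]
    exact isUnit_one
  rcases hcc with h | h | h
  · left; exact hu _ (congrArg (fun t => c⁻¹ * t) h.symm)
  · right; left; exact hu _ (congrArg (fun t => c⁻¹ * t) h.symm)
  · right; right; exact hu _ (congrArg (fun t => c⁻¹ * t) h.symm)

end Pool.Agent.Helper8.DP2
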